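import Pool.Agent.X175.HP.Size

namespace Pool.Agent.X175.HP

open Finset

/-- A computation: its result and the number of steps (bit operations) charged for it. -/
structure Cost (α : Type) where
  ret : α
  time : ℕ

/-- the result `a`, at the cost of one step -/
def retC {α : Type} (a : α) : Cost α := ⟨a, 1⟩

/-- first the computation `x`, then the computation `f` with its result; the steps add up -/
def thenC {α β : Type} (x : Cost α) (f : α → Cost β) : Cost β :=
  ⟨(f x.ret).ret, x.time + (f x.ret).time⟩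

/-- addition; costs one more than the two bit lengths together -/
def addC (a b : ℕ) : Cost ℕ := ⟨a + b, 1 + a.size + b.size⟩

/-- schoolbook multiplication; costs the product of the two bit lengths, each plus one -/
def mulC (a b : ℕ) : Cost ℕ := ⟨a * b, (1 + a.size) * (1 + b.size)⟩

/-- sign test of an input entry; costs one more than the number of bits of the entry -/
def signC (q : ℚ) : Cost ℕ := ⟨if 0 < q then 1 else 0, 1 + q.num.natAbs.size + q.den.size⟩

/-- adding up the results of `f 0, f 1, …` one after the other -/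
def sumC : {N : ℕ} → (Fin N → Cost ℕ) → Cost ℕ
  | 0, _ => retC 0
  | _ + 1, f =>
    thenC (sumC fun i => f i.castSucc) fun s => thenC (f (Fin.last _)) fun x => addC s x

/-- storing the results of `f 0, f 1, …` in a table -/
def tableC {N : ℕ} {β : Type} (f : Fin N → Cost β) : Cost (Fin N → β) :=
  ⟨fun i => (f i).ret, ∑ i, (1 + (f i).time)⟩

/-- the factorial -/
def factC : ℕ → Cost ℕ
  | 0 => retC 1
  | k + 1 => thenC (factC k) fun x => mulC (k + 1) x

/-- powers -/
def powC (a : ℕ) : ℕ → Cost ℕ
  | 0 => retC 1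
  | k + 1 => thenC (powC a k) fun x => mulC x a

/-- the number `bnd m n` -/
def bndC (m n : ℕ) : Cost ℕ :=
  thenC (powC m n) fun e =>
  thenC (mulC n e) fun e1 =>
  thenC (mulC n e1) fun e2 =>
  thenC (mulC e2 n) fun e3 =>
  thenC (addC n 1) fun a1 =>
  thenC (mulC a1 n) fun a2 =>
  thenC (addC a2 e3) fun a3 =>
  thenC (mulC m a3) fun a4 =>
  thenC (mulC m a4) fun a5 =>
  thenC (addC 1 a5) fun a6 =>
  thenC (factC m) fun f =>
  thenC (powC n m) fun p =>
  thenC (mulC f p) fun g =>
  mulC g a6

/-- product of two matrices -/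
def mulMatC {n : ℕ} (X Y : Fin n → Fin n → ℕ) : Cost (Fin n → Fin n → ℕ) :=
  tableC fun i => tableC fun j => sumC fun x => mulC (X i x) (Y x j)

/-- trace of the product of two matrices -/
def traceC {n : ℕ} (X Y : Fin n → Fin n → ℕ) : Cost ℕ :=
  sumC fun i => sumC fun x => mulC (X i x) (Y x i)

/-- after `ℓ` rounds: the matrix `S ^ ℓ` and the sum of `(r + 1) tr (B S ^ r)` over `r < ℓ` -/
def weightC {n : ℕ} (B S : Fin n → Fin n → ℕ) : ℕ → Cost ((Fin n → Fin n → ℕ) × ℕ)
  | 0 =>
    thenC (tableC fun i : Fin n => tableC fun j : Fin n => retC (if i = j then 1 else 0)) fun X =>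
    retC (X, 0)
  | ℓ + 1 =>
    thenC (weightC B S ℓ) fun p =>
    thenC (traceC B p.1) fun t =>
    thenC (mulC (ℓ + 1) t) fun u =>
    thenC (addC p.2 u) fun a =>
    thenC (mulMatC p.1 S) fun X =>
    retC (X, a)

/-- the algorithm -/
def algorithm {m n : ℕ} (A : Fin m → Matrix (Fin n) (Fin n) ℚ) : Cost (Fin m → ℕ) :=
  thenC (tableC fun k => tableC fun i => tableC fun j => signC (A k i j)) fun B =>
  thenC (tableC fun i => tableC fun j => sumC fun k => retC (B k i j)) fun S =>
  thenC (bndC m n) fun b =>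
  tableC fun k => thenC (weightC (B k) S n) fun p => mulC b p.2

/-- the size of the input: `n + m` plus, for each entry, one more than its number of bits -/
def inputSize {m n : ℕ} (A : Fin m → Matrix (Fin n) (Fin n) ℚ) : ℕ :=
  n + m + ∑ k, ∑ i, ∑ j, (1 + (A k i j).num.natAbs.size + (A k i j).den.size)

@[simp] theorem ret_pure {α : Type} (a : α) : (retC a : Cost α).ret = a := rfl
@[simp] theorem time_pure {α : Type} (a : α) : (retC a : Cost α).time = 1 := rfl
@[simp] theorem ret_bind {α β : Type} (x : Cost α) (f : α → Cost β) :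
    (thenC x f).ret = (f x.ret).ret := rfl
@[simp] theorem time_bind {α β : Type} (x : Cost α) (f : α → Cost β) :
    (thenC x f).time = x.time + (f x.ret).time := rfl
@[simp] theorem ret_add (a b : ℕ) : (addC a b).ret = a + b := rfl
@[simp] theorem ret_mul (a b : ℕ) : (mulC a b).ret = a * b := rfl
@[simp] theorem ret_table {N : ℕ} {β : Type} (f : Fin N → Cost β) (i : Fin N) :
    (tableC f).ret i = (f i).ret := rfl

@[simp] theorem ret_sum {N : ℕ} (f : Fin N → Cost ℕ) : (sumC f).ret = ∑ i, (f i).ret := by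
  induction N with
  | zero => simp [sumC]
  | succ N ih => rw [sumC, Fin.sum_univ_castSucc]; simp [ih]

theorem time_sum {N : ℕ} (f : Fin N → Cost ℕ) (t s : ℕ) (ht : ∀ i, (f i).time ≤ t)
    (hs : (∑ i, (f i).ret).size ≤ s) : (sumC f).time ≤ 1 + N * (t + 1 + 2 * s) := by
  induction N with
  | zero => simp [sumC]
  | succ N ih =>
    have h0 := Fin.sum_univ_castSucc (fun i => (f i).ret)
    have h1 : (∑ i : Fin N, (f i.castSucc).ret).size ≤ s :=
      (Nat.size_le_size (by omega)).trans hs
    have h2 : (f (Fin.last N)).ret.size ≤ s := (Nat.size_le_size (by omega)).trans hs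
    have h3 := ih (fun i => f i.castSucc) (fun i => ht _) h1
    have h4 := ht (Fin.last N)
    rw [sumC]
    simp only [time_bind, ret_sum, addC]
    calc _ ≤ (1 + N * (t + 1 + 2 * s)) + (t + (1 + s + s)) := by omega
      _ = _ := by ring

theorem time_table {N : ℕ} {β : Type} (f : Fin N → Cost β) (t : ℕ) (ht : ∀ i, (f i).time ≤ t) :
    (tableC f).time ≤ N * (1 + t) := by
  have h1 : (tableC f).time = ∑ i, (1 + (f i).time) := rfl
  rw [h1]
  calc ∑ i, (1 + (f i).time) ≤ ∑ _i : Fin N, (1 + t) :=
        Finset.sum_le_sum fun i _ => Nat.add_le_add_left (ht i) 1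
    _ = N * (1 + t) := by simp

@[simp] theorem ret_fact (k : ℕ) : (factC k).ret = k.factorial := by
  induction k with
  | zero => rfl
  | succ k ih => rw [factC]; simp [ih, Nat.factorial_succ]

@[simp] theorem ret_pow (a k : ℕ) : (powC a k).ret = a ^ k := by
  induction k with
  | zero => rfl
  | succ k ih => rw [powC]; simp [ih, pow_succ]

theorem ret_bnd (m n : ℕ) : (bndC m n).ret = bnd m n := by
  simp [bndC, bnd]

theorem ret_mulMat {n : ℕ} (X Y : Fin n → Fin n → ℕ) (i j : Fin n) :
    (mulMatC X Y).ret i j = (Matrix.of X * Matrix.of Y : Matrix (Fin n) (Fin n) ℕ) i j := by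
  simp [mulMatC, Matrix.mul_apply]

theorem ret_trace {n : ℕ} (X Y : Fin n → Fin n → ℕ) :
    (traceC X Y).ret = (Matrix.of X * Matrix.of Y : Matrix (Fin n) (Fin n) ℕ).trace := by
  simp [traceC, Matrix.trace, Matrix.mul_apply]

theorem ret_weight {n : ℕ} (B S : Fin n → Fin n → ℕ) (L : ℕ) :
    (∀ i j, (weightC B S L).ret.1 i j = (Matrix.of S ^ L : Matrix (Fin n) (Fin n) ℕ) i j) ∧
    (weightC B S L).ret.2 = ∑ ℓ ∈ range L, (ℓ + 1) *
      (Matrix.of B * Matrix.of S ^ ℓ : Matrix (Fin n) (Fin n) ℕ).trace := by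
  induction L with
  | zero =>
    constructor
    · intro i j
      simp [weightC, Matrix.one_apply]
    · simp [weightC]
  | succ L ih =>
    have h0 : Matrix.of (weightC B S L).ret.1 =
        (Matrix.of S ^ L : Matrix (Fin n) (Fin n) ℕ) := by
      ext i j
      exact ih.1 i j
    constructor
    · intro i j
      have h1 : (weightC B S (L + 1)).ret.1 = (mulMatC (weightC B S L).ret.1 S).ret := rfl
      rw [h1, ret_mulMat, h0, pow_succ]
    · have h1 : (weightC B S (L + 1)).ret.2 =
          (weightC B S L).ret.2 + (L + 1) * (traceC B (weightC B S L).ret.1).ret := rfl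
      rw [h1, ret_trace, h0, ih.2, Finset.sum_range_succ]

theorem ret_S {m n : ℕ} (A : Fin m → Matrix (Fin n) (Fin n) ℚ) :
    (tableC fun i => tableC fun j => sumC fun k => (retC (pat A k i j) : Cost ℕ)).ret =
      fun i j => patSum A i j := by
  funext i j
  rw [patSum, Matrix.sum_apply]
  simp

theorem ret_algorithm {m n : ℕ} (A : Fin m → Matrix (Fin n) (Fin n) ℚ) :
    (algorithm A).ret = colour A := by
  funext k
  have h1 : (algorithm A).ret k = (bndC m n).ret * (weightC (fun i j => pat A k i j)
      (tableC fun i => tableC fun j => sumC fun k => (retC (pat A k i j) : Cost ℕ)).ret n).ret.2 :=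
    rfl
  rw [h1, ret_S, ret_bnd, (ret_weight _ _ _).2]
  rfl

end Pool.Agent.X175.HP
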