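import Mathlib

namespace Pool.Agent.X175.HP

variable {m n : ℕ}

/-- `Wk E w i j`: there is a walk from `i` to `j` whose edges have the colours of the word `w` -/
def Wk (E : Fin m → Fin n → Fin n → Prop) : List (Fin m) → Fin n → Fin n → Prop
  | [], i, j => i = j
  | k :: w, i, j => ∃ x, E k i x ∧ Wk E w x j

variable {E : Fin m → Fin n → Fin n → Prop}

theorem wk_append {w₁ w₂ : List (Fin m)} {i j : Fin n} :
    Wk E (w₁ ++ w₂) i j ↔ ∃ x, Wk E w₁ i x ∧ Wk E w₂ x j := by
  induction w₁ generalizing i with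
  | nil => simp [Wk]
  | cons k w ih =>
    simp only [List.cons_append, Wk, ih]
    constructor
    · rintro ⟨x, h1, y, h2, h3⟩; exact ⟨y, ⟨x, h1, h2⟩, h3⟩
    · rintro ⟨y, ⟨x, h1, h2⟩, h3⟩; exact ⟨x, h1, y, h2, h3⟩

theorem wk_vertices {w : List (Fin m)} {i j : Fin n} (h : Wk E w i j) :
    ∃ v : ℕ → Fin n, v 0 = i ∧ v w.length = j ∧
      ∀ t s, t ≤ s → s ≤ w.length → Wk E ((w.take s).drop t) (v t) (v s) := by
  induction w generalizing i with
  | nil =>
    refine ⟨fun _ => i, rfl, h, ?_⟩
    intro t s _ _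
    simp [Wk]
  | cons k w ih =>
    obtain ⟨x, h1, h2⟩ := h
    obtain ⟨v, hv0, hvl, hv⟩ := ih h2
    refine ⟨fun t => Nat.casesOn t i v, rfl, hvl, ?_⟩
    intro t s hts hs
    rcases s with _ | s
    · obtain rfl : t = 0 := by omega
      simp [Wk]
    · rcases t with _ | t
      · have := hv 0 s (Nat.zero_le _) (by simpa using hs)
        simp only [List.drop_zero, List.take_succ_cons] at this ⊢
        rw [hv0] at this
        exact ⟨x, h1, this⟩
      · have := hv t s (by omega) (by simpa using hs)
        simpa using this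

theorem wk_split {w : List (Fin m)} {i j : Fin n} (h : Wk E w i j) (hl : n < w.length) :
    ∃ w₁ w₂ w₃ y, w = w₁ ++ w₂ ++ w₃ ∧ w₂ ≠ [] ∧ w₂.length ≤ n ∧ Wk E w₁ i y ∧ Wk E w₂ y y ∧
      Wk E w₃ y j := by
  obtain ⟨v, hv0, hvl, hv⟩ := wk_vertices h
  obtain ⟨a, b, hab, hvab⟩ := Fintype.exists_ne_map_eq_of_card_lt
    (fun t : Fin (n + 1) => v t) (by simp)
  wlog hlt : a < b generalizing a b
  · exact this b a hab.symm hvab.symm (lt_of_le_of_ne (not_lt.mp hlt) hab.symm)
  have hlt' : a.1 < b.1 := hlt
  have hb : b.1 ≤ n := by have := b.2; omega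
  refine ⟨w.take a, (w.take b).drop a, w.drop b, v a, ?_, ?_, ?_, ?_, ?_, ?_⟩
  · have h1 : w.take a ++ (w.take b).drop a = w.take b := by
      have := List.take_append_drop a.1 (w.take b)
      rw [List.take_take, min_eq_left hlt'.le] at this
      exact this
    rw [h1, List.take_append_drop]
  · intro h0
    have := congrArg List.length h0
    simp at this
    omega
  · simp; omega
  · have := hv 0 a (Nat.zero_le _) (by omega)
    rw [hv0] at this
    simpa using this
  · have := hv a b hlt'.le (by omega)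
    rwa [← hvab] at this
  · have := hv b w.length (by omega) le_rfl
    rw [hvl, List.take_length, ← hvab] at this
    exact this

/-- a walk can be shortened to one with at most `n` edges -/
theorem wk_short {w : List (Fin m)} {i j : Fin n} (h : Wk E w i j) :
    ∃ w', Wk E w' i j ∧ w'.length ≤ n := by
  induction hN : w.length using Nat.strong_induction_on generalizing w with
  | _ N ih =>
    by_cases hl : w.length ≤ n
    · exact ⟨w, h, hl⟩
    · obtain ⟨w₁, w₂, w₃, y, rfl, hne, _, h1, _, h3⟩ := wk_split h (not_le.mp hl)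
      have hpos : 0 < w₂.length := List.length_pos_iff.mpr hne
      exact ih (w₁ ++ w₃).length (by simp at hN ⊢; omega) (wk_append.mpr ⟨y, h1, h3⟩) rfl

/-- `Reach E c i j`: some walk from `i` to `j` uses each colour `k` exactly `c k` times -/
def Reach (E : Fin m → Fin n → Fin n → Prop) (c : Fin m → ℕ) (i j : Fin n) : Prop :=
  ∃ w : List (Fin m), (∀ k, w.count k = c k) ∧ Wk E w i j

theorem Reach.zero {i : Fin n} : Reach E 0 i i := ⟨[], by simp, rfl⟩

theorem Reach.add {c d : Fin m → ℕ} {i x j : Fin n} (h1 : Reach E c i x) (h2 : Reach E d x j) :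
    Reach E (c + d) i j := by
  obtain ⟨w, hw, hw'⟩ := h1
  obtain ⟨v, hv, hv'⟩ := h2
  exact ⟨w ++ v, fun k => by simp [hw, hv], wk_append.mpr ⟨x, hw', hv'⟩⟩

theorem Reach.nsmul {c : Fin m → ℕ} {x : Fin n} (h : Reach E c x x) (N : ℕ) :
    Reach E (N • c) x x := by
  induction N with
  | zero => simpa using Reach.zero
  | succ N ih => rw [succ_nsmul]; exact ih.add h

theorem Reach.sum {ι : Type*} (s : Finset ι) (c : ι → Fin m → ℕ) (x : Fin n)
    (h : ∀ i ∈ s, Reach E (c i) x x) : Reach E (∑ i ∈ s, c i) x x := by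
  classical
  induction s using Finset.induction_on with
  | empty => simpa using Reach.zero
  | insert a s ha ih =>
    rw [Finset.sum_insert ha]
    exact (h a (Finset.mem_insert_self _ _)).add
      (ih fun i hi => h i (Finset.mem_insert_of_mem hi))

theorem Reach.color {c : Fin m → ℕ} {i j : Fin n} (h : Reach E c i j) {k : Fin m}
    (hk : c k ≠ 0) : ∃ a b, E k a b := by
  obtain ⟨w, hw, hw'⟩ := h
  have hmem : k ∈ w := by
    rw [← List.count_pos_iff, hw k]; omega
  clear hw
  induction w generalizing i with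
  | nil => simp at hmem
  | cons l w ih =>
    obtain ⟨x, h1, h2⟩ := hw'
    rcases List.mem_cons.mp hmem with rfl | h3
    · exact ⟨i, x, h1⟩
    · exact ih h2 h3

/-- a walk from `i` to `j` through all vertices of `s`, with closed walks inserted there -/
theorem master (hconn : ∀ i j, ∃ w, Wk E w i j) (s : Finset (Fin n)) (i j : Fin n) :
    ∃ c : Fin m → ℕ, (∀ k, c k ≤ (s.card + 1) * n) ∧
      ∀ d : Fin n → Fin m → ℕ, (∀ x ∈ s, Reach E (d x) x x) → Reach E (c + ∑ x ∈ s, d x) i j := by
  classical
  induction s using Finset.induction_on generalizing i with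
  | empty =>
    obtain ⟨w, hw⟩ := hconn i j
    obtain ⟨w', hw', hl⟩ := wk_short hw
    refine ⟨fun k => w'.count k, fun k => ?_, fun d _ => ⟨w', fun k => by simp, hw'⟩⟩
    have := List.count_le_length (a := k) (l := w')
    simp; omega
  | insert x s hx ih =>
    obtain ⟨w, hw⟩ := hconn i x
    obtain ⟨w', hw', hl⟩ := wk_short hw
    obtain ⟨c, hc, hc'⟩ := ih x
    refine ⟨(fun k => w'.count k) + c, fun k => ?_, fun d hd => ?_⟩
    · have h1 := List.count_le_length (a := k) (l := w')
      have h2 := hc k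
      rw [Finset.card_insert_of_notMem hx]
      simp only [Pi.add_apply]
      nlinarith
    · rw [Finset.sum_insert hx]
      have h1 : Reach E (fun k => w'.count k) i x := ⟨w', fun k => rfl, hw'⟩
      have h2 := hd x (Finset.mem_insert_self _ _)
      have h3 := hc' d fun y hy => hd y (Finset.mem_insert_of_mem hy)
      have := h1.add (h2.add h3)
      convert this using 1
      abel

end Pool.Agent.X175.HP
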