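import Pool.Agent.X175.HP.Lat
import Pool.Agent.X175.HP.Walk

namespace Pool.Agent.X175.HP

open Finset

variable {m n : ℕ}

/-- words of length between `1` and `n`, together with a vertex -/
abbrev Ix (m n : ℕ) := Fin n × (Σ ℓ : Fin n, (Fin (ℓ.1 + 1) → Fin m))

/-- the word describes a closed walk at the vertex -/
def Cl (E : Fin m → Fin n → Fin n → Prop) (t : Ix m n) : Prop :=
  Wk E (List.ofFn t.2.2) t.1 t.1

/-- the number of letters `k` of the word -/
def cnt (t : Ix m n) (k : Fin m) : ℕ := (List.ofFn t.2.2).count k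

/-- the colours which occur -/
abbrev Col (E : Fin m → Fin n → Fin n → Prop) := {k : Fin m // ∃ a b, E k a b}

/-- the colour vectors of the short closed walks -/
def U (E : Fin m → Fin n → Fin n → Prop) (t : {t : Ix m n // Cl E t}) : Col E → ℤ :=
  fun k => (cnt t.1 k.1 : ℤ)

variable {E : Fin m → Fin n → Fin n → Prop}

theorem closed_mem {w : List (Fin m)} {x : Fin n} (h : Wk E w x x) :
    (fun k : Col E => (w.count k.1 : ℤ)) ∈ Submodule.span ℤ (Set.range (U E)) := by
  induction hN : w.length using Nat.strong_induction_on generalizing w x with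
  | _ N ih =>
    by_cases hl : w.length ≤ n
    · rcases w with _ | ⟨a, w⟩
      · have : (fun k : Col E => ((([] : List (Fin m)).count k.1 : ℕ) : ℤ)) = 0 := by
          ext k; simp
        rw [this]; exact Submodule.zero_mem _
      · have hlen : w.length < n := by simp at hl; omega
        let f : Fin (w.length + 1) → Fin m := (a :: w).get
        have hf : List.ofFn f = a :: w := List.ofFn_get (a :: w)
        have ht : Cl E (x, ⟨⟨w.length, hlen⟩, f⟩) := by
          unfold Cl
          rw [hf]; exact h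
        refine Submodule.subset_span ⟨⟨_, ht⟩, ?_⟩
        ext k
        simp only [U, cnt]
        rw [hf]
    · obtain ⟨w₁, w₂, w₃, y, rfl, hne, hl2, h1, h2, h3⟩ := wk_split h (not_le.mp hl)
      have hpos : 0 < w₂.length := List.length_pos_iff.mpr hne
      have e1 := ih (w₁ ++ w₃).length (by simp at hN ⊢; omega) (wk_append.mpr ⟨y, h1, h3⟩) rfl
      have e2 := ih w₂.length (by simp at hN hl; omega) h2 rfl
      have := add_mem e1 e2
      convert this using 1
      ext k
      simp only [List.count_append, Pi.add_apply]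
      push_cast
      ring

theorem gen (α' : Fin m → ℕ) (h' : ∀ i j, Reach E α' i j) (c : Col E → ℤ) :
    c ∈ Submodule.span ℤ (Set.range (U E)) := by
  classical
  have hs : ∀ k : Col E, (Pi.single k 1 : Col E → ℤ) ∈ Submodule.span ℤ (Set.range (U E)) := by
    intro k
    obtain ⟨a, b, hab⟩ := k.2
    obtain ⟨w, hw, hw'⟩ := h' b a
    obtain ⟨v, hv, hv'⟩ := h' a a
    have h1 : Wk E (k.1 :: w) a a := ⟨b, hab, hw'⟩
    have := sub_mem (closed_mem h1) (closed_mem hv')
    convert this using 1
    ext l
    simp only [Pi.sub_apply, List.count_cons, hw, hv, Pi.single_apply]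
    by_cases hl : l = k
    · subst hl; simp
    · have : ¬ (k.1 = l.1) := fun h => hl (Subtype.ext h.symm)
      simp [hl, this]
  have hc : c = ∑ k, c k • (Pi.single k 1 : Col E → ℤ) := by
    ext l
    simp [Finset.sum_apply, Pi.single_apply]
  rw [hc]
  exact Submodule.sum_mem _ fun k _ => Submodule.smul_mem _ _ (hs k)

/-- the bound -/
def bnd (m n : ℕ) : ℕ :=
  m.factorial * n ^ m * (1 + m * (m * ((n + 1) * n + n * (n * m ^ n) * n)))

theorem card_cl [DecidablePred (Cl E)] (hm : 1 ≤ m) :
    Fintype.card {t : Ix m n // Cl E t} ≤ n * (n * m ^ n) := by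
  refine (Fintype.card_subtype_le _).trans ?_
  rw [Fintype.card_prod, Fintype.card_fin, Fintype.card_sigma]
  apply Nat.mul_le_mul_left
  calc ∑ ℓ : Fin n, Fintype.card (Fin (ℓ.1 + 1) → Fin m) ≤ ∑ _ℓ : Fin n, m ^ n := by
        apply Finset.sum_le_sum
        intro ℓ _
        rw [Fintype.card_fun, Fintype.card_fin, Fintype.card_fin]
        exact Nat.pow_le_pow_right hm ℓ.2
    _ = n * m ^ n := by simp

theorem reach_of_large (hn : 1 ≤ n) (hm : 1 ≤ m) (α' : Fin m → ℕ) (h' : ∀ i j, Reach E α' i j)
    (μ : Ix m n → ℕ) (hμ : ∀ t, 0 < μ t ↔ Cl E t) (M : ℕ) (hM : bnd m n ≤ M) (i j : Fin n) :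
    Reach E (fun k => M * ∑ t, μ t * cnt t k) i j := by
  classical
  have hconn : ∀ i j, ∃ w, Wk E w i j := fun i j => by
    obtain ⟨w, _, hw⟩ := h' i j; exact ⟨w, hw⟩
  obtain ⟨c, hc, hc'⟩ := master hconn univ i j
  have hrc : Reach E c i j := by
    have := hc' 0 (fun x _ => Reach.zero)
    simpa using this
  have hgen : ∀ c : Col E → ℤ, ∃ y : {t : Ix m n // Cl E t} → ℤ, ∑ t, y t • U E t = c := by
    intro c
    exact (Submodule.mem_span_range_iff_exists_fun ℤ).mp (gen α' h' c)
  have hU : ∀ t k, |U E t k| ≤ n := by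
    intro t k
    simp only [U, cnt]
    rw [abs_of_nonneg (by positivity)]
    have h1 := List.count_le_length (a := k.1) (l := List.ofFn t.1.2.2)
    rw [List.length_ofFn] at h1
    have h2 := t.1.2.1.2
    exact_mod_cast (by omega : List.count k.1 (List.ofFn t.1.2.2) ≤ n)
  obtain ⟨z, hz, hzb⟩ := bounded_rep (U E) hgen n hn hU ((n + 1) * n) (fun k => (c k.1 : ℤ)) (by
    intro k
    rw [abs_of_nonneg (by positivity)]
    have := hc k.1
    simp only [Finset.card_univ, Fintype.card_fin] at this
    exact_mod_cast this)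
  have hκ : Fintype.card (Col E) ≤ m := by
    have := Fintype.card_subtype_le (fun k : Fin m => ∃ a b, E k a b)
    simpa using this
  have hT := card_cl (E := E) (n := n) hm
  have hzM : ∀ t, z t ≤ M := by
    intro t
    have h1 := hzb t
    have h2 : ((Fintype.card (Col E)).factorial * n ^ Fintype.card (Col E)) *
        (1 + (Fintype.card (Col E)) * ((Fintype.card (Col E)) *
          (((n + 1) * n) + Fintype.card {t : Ix m n // Cl E t} * n))) ≤ bnd m n := by
      unfold bnd
      have h3 : (Fintype.card (Col E)).factorial ≤ m.factorial := Nat.factorial_le hκ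
      have h4 : n ^ Fintype.card (Col E) ≤ n ^ m := Nat.pow_le_pow_right hn hκ
      gcongr
    have h5 : (((Fintype.card (Col E)).factorial * n ^ Fintype.card (Col E)) *
        (1 + (Fintype.card (Col E)) * ((Fintype.card (Col E)) *
          (((n + 1) * n) + Fintype.card {t : Ix m n // Cl E t} * n))) : ℕ) ≤ M := h2.trans hM
    have h6 : ((((Fintype.card (Col E)).factorial * n ^ Fintype.card (Col E)) *
        (1 + (Fintype.card (Col E)) * ((Fintype.card (Col E)) *
          (((n + 1) * n) + Fintype.card {t : Ix m n // Cl E t} * n))) : ℕ) : ℤ) ≤ M := by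
      exact_mod_cast h5
    refine h1.trans (le_trans (le_of_eq ?_) h6)
    push_cast
    ring
  have hN : ∀ t : {t : Ix m n // Cl E t}, ((M * μ t.1 - z t : ℤ).toNat : ℤ) = M * μ t.1 - z t := by
    intro t
    apply Int.toNat_of_nonneg
    have h1 : 1 ≤ μ t.1 := (hμ t.1).mpr t.2
    have h2 : (M : ℤ) * 1 ≤ M * μ t.1 := by
      apply mul_le_mul_of_nonneg_left _ (by positivity)
      exact_mod_cast h1
    have := hzM t
    linarith
  set d : Fin n → Fin m → ℕ := fun x => ∑ t : {t : Ix m n // Cl E t} with t.1.1 = x,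
    (M * μ t.1 - z t : ℤ).toNat • cnt t.1 with hd
  have hrd : ∀ x, Reach E (d x) x x := by
    intro x
    apply Reach.sum
    intro t ht
    apply Reach.nsmul
    have h1 := t.2
    rw [(Finset.mem_filter.mp ht).2.symm]
    exact ⟨_, fun k => rfl, h1⟩
  have hmain := hc' d (fun x _ => hrd x)
  convert hmain using 1
  funext k
  have hfib : (∑ x, d x) k = ∑ t : {t : Ix m n // Cl E t},
      (M * μ t.1 - z t : ℤ).toNat * cnt t.1 k := by
    rw [← Finset.sum_fiberwise (s := Finset.univ) (g := fun t : {t : Ix m n // Cl E t} => t.1.1)]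
    rw [Finset.sum_apply]
    apply Finset.sum_congr rfl
    intro x _
    rw [hd]
    simp only [Finset.sum_apply, Pi.smul_apply, smul_eq_mul]
  have hsub : ∑ t, μ t * cnt t k = ∑ t : {t : Ix m n // Cl E t}, μ t.1 * cnt t.1 k := by
    rw [← Finset.sum_filter_of_ne (p := fun t => Cl E t) (s := Finset.univ)
      (f := fun t => μ t * cnt t k)]
    · exact Finset.sum_subtype (univ.filter fun t => Cl E t) (by simp) _
    · intro t _ ht
      apply (hμ t).mp
      apply Nat.pos_of_ne_zero
      intro h0
      exact ht (by simp [h0])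
  rw [Pi.add_apply, hfib, hsub]
  by_cases hk : ∃ a b, E k a b
  · have hzk := congrFun hz ⟨k, hk⟩
    simp only [Finset.sum_apply, Pi.smul_apply, smul_eq_mul, U] at hzk
    zify
    rw [← hzk, Finset.mul_sum, ← Finset.sum_add_distrib]
    apply Finset.sum_congr rfl
    intro t _
    rw [hN t]
    ring
  · have h0 : ∀ t : {t : Ix m n // Cl E t}, cnt t.1 k = 0 := by
      intro t
      by_contra h1
      exact hk (Reach.color (c := cnt t.1) ⟨_, fun k => rfl, t.2⟩ h1)
    have h1 : c k = 0 := by
      by_contra h1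
      exact hk (hrc.color h1)
    simp [h0, h1]

end Pool.Agent.X175.HP
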