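import Mathlib

namespace Pool.Agent.X175.HP

open Finset

/-- if the integer combinations of the `u t` are all of `ℤ^κ`, some `κ × κ` minor is nonzero -/
theorem exists_minor {κ T : Type*} [Fintype κ] [DecidableEq κ] [Fintype T] [DecidableEq T]
    (u : T → κ → ℤ) (h : ∀ c : κ → ℤ, ∃ y : T → ℤ, ∑ t, y t • u t = c) :
    ∃ b : κ → T, (Matrix.of fun k => u (b k)).det ≠ 0 := by
  by_contra hcon
  push Not at hcon
  choose y hy using fun k : κ => h (Pi.single k 1)
  have h2 : (1 : Matrix κ κ ℤ) = Matrix.of (fun k => ∑ t, y k t • u t) := by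
    ext k j
    rw [Matrix.of_apply, hy k]
    simp [Matrix.one_apply, Pi.single_apply, eq_comm]
  have h3 : (Matrix.detRowAlternating (n := κ) (R := ℤ)).toMultilinearMap
      (fun k => ∑ t, y k t • u t) = 0 := by
    rw [MultilinearMap.map_sum]
    apply Finset.sum_eq_zero
    intro r _
    rw [MultilinearMap.map_smul_univ]
    have := hcon r
    have h4 : (Matrix.detRowAlternating (n := κ) (R := ℤ)).toMultilinearMap
      (fun k => u (r k)) = 0 := this
    rw [h4, smul_zero]
  have h4 : (Matrix.of (fun k => ∑ t, y k t • u t)).det = 0 := h3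
  rw [← h2, Matrix.det_one] at h4
  exact one_ne_zero h4

theorem bounded_rep {κ T : Type*} [Fintype κ] [DecidableEq κ] [Fintype T] [DecidableEq T]
    (u : T → κ → ℤ) (h : ∀ c : κ → ℤ, ∃ y : T → ℤ, ∑ t, y t • u t = c)
    (n : ℕ) (hn : 1 ≤ n) (hu : ∀ t k, |u t k| ≤ n) (C : ℕ) (c : κ → ℤ) (hc : ∀ k, |c k| ≤ C) :
    ∃ z : T → ℤ, ∑ t, z t • u t = c ∧ ∀ t, z t ≤
      ((Fintype.card κ).factorial * n ^ Fintype.card κ : ℤ) *
        (1 + (Fintype.card κ : ℤ) * ((Fintype.card κ : ℤ) * (C + Fintype.card T * n))) := by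
  obtain ⟨b, hb⟩ := exists_minor u h
  set B : Matrix κ κ ℤ := Matrix.of fun k => u (b k) with hB
  set D : ℤ := B.det with hD
  set F : ℤ := ((Fintype.card κ).factorial * n ^ Fintype.card κ : ℤ) with hF
  have hn' : (1 : ℤ) ≤ n := by exact_mod_cast hn
  have habs : |D| ≤ F := by
    have := Matrix.det_le (A := B) (abv := (AbsoluteValue.abs : AbsoluteValue ℤ ℤ)) (x := (n : ℤ))
      (fun i j => hu (b i) j)
    simpa [hF, nsmul_eq_mul] using this
  have hadj : ∀ i j, |B.adjugate i j| ≤ F := by
    intro i j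
    rw [Matrix.adjugate_apply]
    have := Matrix.det_le (A := B.updateRow j (Pi.single i 1))
      (abv := (AbsoluteValue.abs : AbsoluteValue ℤ ℤ)) (x := (n : ℤ)) (by
        intro a c
        rw [Matrix.updateRow_apply]
        split_ifs
        · rw [Pi.single_apply]
          split_ifs
          · simpa using hn'
          · simp
        · exact hu (b a) c)
    simpa [hF, nsmul_eq_mul] using this
  have hF0 : 0 ≤ F := le_trans (abs_nonneg _) habs
  obtain ⟨y, hy⟩ := h c
  have hDpos : 0 < |D| := abs_pos.mpr hb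
  set c' : κ → ℤ := ∑ t, (y t / D) • u t with hc'
  have hsplit : c = ∑ t, (y t % D) • u t + D • c' := by
    rw [← hy, hc', Finset.smul_sum, ← Finset.sum_add_distrib]
    apply Finset.sum_congr rfl
    intro t _
    rw [smul_smul, ← add_smul, Int.emod_add_mul_ediv]
  have hc'b : ∀ k, |c' k| ≤ C + Fintype.card T * n := by
    intro k
    have h1 : D * c' k = c k - ∑ t, (y t % D) * u t k := by
      have := congrFun hsplit k
      simp only [Pi.add_apply, Finset.sum_apply, Pi.smul_apply, smul_eq_mul] at this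
      linarith
    have h2 : |∑ t, (y t % D) * u t k| ≤ ∑ _t : T, |D| * n := by
      refine (Finset.abs_sum_le_sum_abs _ _).trans (Finset.sum_le_sum fun t _ => ?_)
      rw [abs_mul]
      apply mul_le_mul _ (hu t k) (abs_nonneg _) hDpos.le
      rw [abs_of_nonneg (Int.emod_nonneg _ hb)]
      exact (Int.emod_lt_abs _ hb).le
    rw [Finset.sum_const, Finset.card_univ, nsmul_eq_mul] at h2
    have h3 : |D| * |c' k| ≤ C + Fintype.card T * (|D| * n) := by
      rw [← abs_mul, h1]
      exact (abs_sub _ _).trans (add_le_add (hc k) h2)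
    have h4 : (C : ℤ) ≤ |D| * C := by
      have : (0 : ℤ) ≤ C := by positivity
      nlinarith
    have h5 : |D| * |c' k| ≤ |D| * (C + Fintype.card T * n) := by
      calc |D| * |c' k| ≤ C + Fintype.card T * (|D| * n) := h3
        _ ≤ |D| * C + Fintype.card T * (|D| * n) := by linarith
        _ = |D| * (C + Fintype.card T * n) := by ring
    exact le_of_mul_le_mul_left h5 hDpos
  set a : κ → ℤ := Matrix.vecMul c' B.adjugate with ha
  have haB : ∑ k, a k • u (b k) = D • c' := by
    have h1 : Matrix.vecMul a B = D • c' := by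
      rw [ha, Matrix.vecMul_vecMul, Matrix.adjugate_mul]
      ext j
      simp only [Matrix.vecMul_smul, Matrix.vecMul_one, Pi.smul_apply, smul_eq_mul]
      rfl
    rw [← h1]
    ext j
    simp [Matrix.vecMul, dotProduct, hB]
  set W : ℤ := (C + Fintype.card T * n : ℤ) with hW
  have hW0 : 0 ≤ W := by positivity
  have hab : ∀ k, |a k| ≤ Fintype.card κ * W * F := by
    intro k
    have h1 : a k = ∑ j, c' j * B.adjugate j k := by
      simp [ha, Matrix.vecMul, dotProduct]
    rw [h1]
    calc |∑ j, c' j * B.adjugate j k| ≤ ∑ _j : κ, W * F := by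
          refine (Finset.abs_sum_le_sum_abs _ _).trans (Finset.sum_le_sum fun j _ => ?_)
          rw [abs_mul]
          exact mul_le_mul (hc'b j) (hadj j k) (abs_nonneg _) hW0
      _ = Fintype.card κ * W * F := by
          rw [Finset.sum_const, Finset.card_univ, nsmul_eq_mul]; ring
  refine ⟨fun t => y t % D + ∑ k with b k = t, a k, ?_, ?_⟩
  · rw [hsplit, ← haB]
    simp only [add_smul, Finset.sum_add_distrib]
    congr 1
    rw [← Finset.sum_fiberwise (s := Finset.univ) (g := b) (f := fun k => a k • u (b k))]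
    apply Finset.sum_congr rfl
    intro t _
    rw [Finset.sum_smul]
    apply Finset.sum_congr rfl
    intro k hk
    rw [(Finset.mem_filter.mp hk).2]
  · intro t
    have h1 : y t % D ≤ F := ((Int.emod_lt_abs _ hb).le).trans habs
    have h2 : ∑ k with b k = t, a k ≤ Fintype.card κ * (Fintype.card κ * W * F) := by
      calc ∑ k with b k = t, a k ≤ ∑ k with b k = t, |a k| :=
            Finset.sum_le_sum fun k _ => le_abs_self _
        _ ≤ ∑ k, |a k| := Finset.sum_le_sum_of_subset_of_nonneg (Finset.filter_subset _ _)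
            (fun _ _ _ => abs_nonneg _)
        _ ≤ ∑ _k : κ, Fintype.card κ * W * F := Finset.sum_le_sum fun k _ => hab k
        _ = _ := by rw [Finset.sum_const, Finset.card_univ, nsmul_eq_mul]
    calc y t % D + ∑ k with b k = t, a k ≤ F + Fintype.card κ * (Fintype.card κ * W * F) :=
          add_le_add h1 h2
      _ = F * (1 + (Fintype.card κ : ℤ) * ((Fintype.card κ : ℤ) * W)) := by ring

end Pool.Agent.X175.HP
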