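import Pool.Agent.X175.HP.Gen

namespace Pool.Agent.X175.HP

open Finset

/-- The Hurwitz product `A^α`: the sum, over all words `w` of length `|α| = ∑ k, α k` in which each
letter `k` occurs exactly `α k` times, of the products `A_{w 0} A_{w 1} ⋯`. -/
def hurwitz {m n : ℕ} (A : Fin m → Matrix (Fin n) (Fin n) ℚ) (α : Fin m → ℕ) :
    Matrix (Fin n) (Fin n) ℚ :=
  ∑ w : Fin (∑ k, α k) → Fin m with ∀ k, #{i | w i = k} = α k, (List.ofFn fun i => A (w i)).prod

/-- the zero pattern of `A k`: the matrix with entry `1` where `A k` is positive, `0` elsewhere -/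
def pat {m n : ℕ} (A : Fin m → Matrix (Fin n) (Fin n) ℚ) (k : Fin m) :
    Matrix (Fin n) (Fin n) ℕ :=
  Matrix.of fun i j => if 0 < A k i j then 1 else 0

/-- the sum of the zero patterns -/
def patSum {m n : ℕ} (A : Fin m → Matrix (Fin n) (Fin n) ℚ) : Matrix (Fin n) (Fin n) ℕ :=
  ∑ k, pat A k

/-- the colour vector -/
def colour {m n : ℕ} (A : Fin m → Matrix (Fin n) (Fin n) ℚ) (k : Fin m) : ℕ :=
  bnd m n * ∑ ℓ ∈ range n, (ℓ + 1) * (pat A k * patSum A ^ ℓ).trace

variable {m n : ℕ}

theorem count_ofFn {N : ℕ} (w : Fin N → Fin m) (k : Fin m) :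
    (List.ofFn w).count k = #{i | w i = k} := by
  rw [← Multiset.coe_count, ← Fin.univ_val_map, Multiset.count_map, Finset.card_def]
  simp only [Finset.filter_val, eq_comm]

section pos

variable {R : Type*} [Semiring R] [PartialOrder R] [IsStrictOrderedRing R]

theorem prod_pos_iff (A : Fin m → Matrix (Fin n) (Fin n) R) (hA : ∀ k i j, 0 ≤ A k i j)
    (w : List (Fin m)) (i j : Fin n) :
    0 ≤ (w.map A).prod i j ∧ (0 < (w.map A).prod i j ↔ Wk (fun k i j => 0 < A k i j) w i j) := by
  induction w generalizing i with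
  | nil =>
    simp only [List.map_nil, List.prod_nil, Matrix.one_apply, Wk]
    by_cases h : i = j <;> simp [h]
  | cons k w ih =>
    simp only [List.map_cons, List.prod_cons, Matrix.mul_apply, Wk]
    have hnn : ∀ x ∈ (univ : Finset (Fin n)), 0 ≤ A k i x * (w.map A).prod x j :=
      fun x _ => mul_nonneg (hA k i x) (ih x).1
    refine ⟨Finset.sum_nonneg hnn, ?_⟩
    rw [Finset.sum_pos_iff_of_nonneg hnn]
    constructor
    · rintro ⟨x, _, hx⟩
      have h1 : 0 < A k i x := lt_of_le_of_ne (hA k i x) (fun h => by simp [← h] at hx)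
      have h2 : 0 < (w.map A).prod x j :=
        lt_of_le_of_ne (ih x).1 (fun h => by simp [← h] at hx)
      exact ⟨x, h1, ((ih x).2).mp h2⟩
    · rintro ⟨x, hx, hx'⟩
      exact ⟨x, Finset.mem_univ _, mul_pos hx (((ih x).2).mpr hx')⟩

end pos

theorem hurwitz_pos_iff (A : Fin m → Matrix (Fin n) (Fin n) ℚ) (hA : ∀ k i j, 0 ≤ A k i j)
    (α : Fin m → ℕ) (i j : Fin n) :
    0 < hurwitz A α i j ↔ Reach (fun k i j => 0 < A k i j) α i j := by
  unfold hurwitz
  rw [Matrix.sum_apply, Finset.sum_pos_iff_of_nonneg]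
  · constructor
    · rintro ⟨w, hw, hw'⟩
      refine ⟨List.ofFn w, fun k => ?_, ?_⟩
      · rw [count_ofFn]; exact (Finset.mem_filter.mp hw).2 k
      · apply ((prod_pos_iff A hA _ i j).2).mp
        rw [List.map_ofFn]; exact hw'
    · rintro ⟨v, hv, hv'⟩
      have hlen : v.length = ∑ k, α k := by
        rw [← Finset.sum_congr rfl (fun k _ => hv k)]
        have := Multiset.sum_count_eq_card (s := (Finset.univ : Finset (Fin m)))
          (m := (v : Multiset (Fin m))) (fun a _ => Finset.mem_univ a)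
        simpa using this.symm
      have hex : ∀ N, v.length = N → ∃ f : Fin N → Fin m, List.ofFn f = v := by
        rintro _ rfl; exact ⟨v.get, List.ofFn_get v⟩
      obtain ⟨f, hf⟩ := hex _ hlen
      refine ⟨f, Finset.mem_filter.mpr ⟨Finset.mem_univ _, fun k => ?_⟩, ?_⟩
      · rw [← count_ofFn, hf]; exact hv k
      · have := ((prod_pos_iff A hA v i j).2).mpr hv'
        rw [← hf, List.map_ofFn] at this
        exact this
  · intro w _
    have := (prod_pos_iff A hA (List.ofFn w) i j).1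
    rw [List.map_ofFn] at this
    exact this

section trace

variable (B : Fin m → Matrix (Fin n) (Fin n) ℕ)

theorem sum_words (ℓ : ℕ) :
    ∑ w : Fin ℓ → Fin m, ((List.ofFn w).map B).prod = (∑ k, B k) ^ ℓ := by
  induction ℓ with
  | zero => simp
  | succ ℓ ih =>
    rw [← (Fin.consEquiv fun _ => Fin m).sum_comp, Fintype.sum_prod_type]
    simp only [Fin.consEquiv_apply, List.ofFn_succ, Fin.cons_zero, Fin.cons_succ, List.map_cons,
      List.prod_cons]
    simp only [← Finset.mul_sum, ih]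
    rw [← Finset.sum_mul, pow_succ']

/-- words weighted by the number of letters `k` -/
def P (k : Fin m) (ℓ : ℕ) : Matrix (Fin n) (Fin n) ℕ :=
  ∑ w : Fin ℓ → Fin m, (List.ofFn w).count k • ((List.ofFn w).map B).prod

theorem P_zero (k : Fin m) : P B k 0 = 0 := by simp [P]

theorem P_succ (k : Fin m) (ℓ : ℕ) :
    P B k (ℓ + 1) = (∑ k, B k) * P B k ℓ + B k * (∑ k, B k) ^ ℓ := by
  unfold P
  rw [← (Fin.consEquiv fun _ => Fin m).sum_comp, Fintype.sum_prod_type]
  simp only [Fin.consEquiv_apply, List.ofFn_succ, Fin.cons_zero, Fin.cons_succ, List.map_cons,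
    List.prod_cons, List.count_cons, add_smul, Finset.sum_add_distrib]
  congr 1
  · rw [Finset.sum_mul]
    apply Finset.sum_congr rfl
    intro a _
    rw [Finset.mul_sum]
    apply Finset.sum_congr rfl
    intro w _
    rw [mul_smul_comm]
  · rw [← sum_words]
    rw [Finset.sum_eq_single k]
    · simp [Finset.mul_sum]
    · intro b _ hb
      simp [hb]
    · simp

theorem trace_P (k : Fin m) (ℓ a : ℕ) :
    ((∑ k, B k) ^ a * P B k (ℓ + 1)).trace = (ℓ + 1) * (B k * (∑ k, B k) ^ (a + ℓ)).trace := by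
  induction ℓ generalizing a with
  | zero =>
    rw [P_succ, P_zero]
    simp only [mul_zero, zero_add, pow_zero, mul_one, add_zero, one_mul]
    rw [Matrix.trace_mul_comm]
  | succ ℓ ih =>
    rw [P_succ, mul_add, Matrix.trace_add, ← mul_assoc, ← pow_succ, ih]
    have h1 : ((∑ k, B k) ^ a * (B k * (∑ k, B k) ^ (ℓ + 1))).trace =
        (B k * (∑ k, B k) ^ (a + (ℓ + 1))).trace := by
      rw [Matrix.trace_mul_comm, mul_assoc, ← pow_add, add_comm (ℓ + 1) a]
    rw [h1]
    have h2 : a + 1 + ℓ = a + (ℓ + 1) := by ring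
    rw [h2]
    ring

theorem sum_ix (k : Fin m) :
    ∑ t : Ix m n, ((List.ofFn t.2.2).map B).prod t.1 t.1 * cnt t k =
      ∑ ℓ ∈ range n, (ℓ + 1) * (B k * (∑ k, B k) ^ ℓ).trace := by
  have h1 : ∀ ℓ : ℕ, ∑ x : Fin n, ∑ w : Fin (ℓ + 1) → Fin m,
      ((List.ofFn w).map B).prod x x * (List.ofFn w).count k =
        (ℓ + 1) * (B k * (∑ k, B k) ^ ℓ).trace := by
    intro ℓ
    have h2 := trace_P B k ℓ 0
    rw [pow_zero, one_mul, zero_add] at h2
    rw [← h2, Matrix.trace, P]
    apply Finset.sum_congr rfl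
    intro x _
    simp only [Matrix.diag_apply, Matrix.sum_apply, Matrix.smul_apply, smul_eq_mul]
    apply Finset.sum_congr rfl
    intro w _
    rw [mul_comm]
  rw [Fintype.sum_prod_type]
  simp only [Fintype.sum_sigma, cnt]
  rw [Finset.sum_comm]
  rw [Finset.sum_range]
  apply Finset.sum_congr rfl
  intro ℓ _
  exact h1 ℓ

end trace

theorem colour_pos (hn : 1 ≤ n) (A : Fin m → Matrix (Fin n) (Fin n) ℚ)
    (hA : ∀ k i j, 0 ≤ A k i j) (α : Fin m → ℕ) (hα : 1 ≤ ∑ k, α k)
    (h : ∀ i j, 0 < hurwitz A α i j) (i j : Fin n) : 0 < hurwitz A (colour A) i j := by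
  have hm : 1 ≤ m := by
    rcases m with _ | m
    · simp at hα
    · omega
  rw [hurwitz_pos_iff A hA]
  have hE : (fun k i j => 0 < A k i j) = (fun k i j => 0 < pat A k i j) := by
    funext k i j
    simp only [pat, Matrix.of_apply, eq_iff_iff]
    split_ifs with h0 <;> simp [h0]
  have h1 : ∀ i j, Reach (fun k i j => 0 < A k i j) α i j := fun i j =>
    (hurwitz_pos_iff A hA α i j).mp (h i j)
  have h2 := reach_of_large hn hm α h1
    (fun t => ((List.ofFn t.2.2).map (pat A)).prod t.1 t.1) (fun t => by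
      rw [hE]
      exact (prod_pos_iff (pat A) (fun _ _ _ => Nat.zero_le _) _ _ _).2) (bnd m n) le_rfl i j
  have h3 : (fun k => bnd m n * ∑ t : Ix m n,
      ((List.ofFn t.2.2).map (pat A)).prod t.1 t.1 * cnt t k) = colour A := by
    funext k
    rw [sum_ix, colour, patSum]
  rw [h3] at h2
  exact h2

end Pool.Agent.X175.HP
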