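import Pool.Agent.X175.HP.Main

namespace Pool.Agent.X175.HP

open Finset

variable {m n : ℕ}

theorem pat_le (A : Fin m → Matrix (Fin n) (Fin n) ℚ) (k : Fin m) (i j : Fin n) :
    pat A k i j ≤ 1 := by
  simp only [pat, Matrix.of_apply]; split_ifs <;> simp

theorem patSum_le (A : Fin m → Matrix (Fin n) (Fin n) ℚ) (i j : Fin n) : patSum A i j ≤ m := by
  rw [patSum, Matrix.sum_apply]
  calc ∑ k, pat A k i j ≤ ∑ _k : Fin m, 1 := Finset.sum_le_sum fun k _ => pat_le A k i j
    _ = m := by simp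

theorem pow_le' (A : Fin m → Matrix (Fin n) (Fin n) ℚ) (ℓ : ℕ) (i j : Fin n) :
    (patSum A ^ ℓ) i j ≤ (n * m) ^ ℓ := by
  induction ℓ generalizing i j with
  | zero => simp only [pow_zero, Matrix.one_apply]; split_ifs <;> simp
  | succ ℓ ih =>
    rw [pow_succ, Matrix.mul_apply]
    calc ∑ x, (patSum A ^ ℓ) i x * patSum A x j ≤ ∑ _x : Fin n, (n * m) ^ ℓ * m :=
          Finset.sum_le_sum fun x _ => Nat.mul_le_mul (ih i x) (patSum_le A x j)
      _ = (n * m) ^ (ℓ + 1) := by simp; ring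

theorem trace_le (A : Fin m → Matrix (Fin n) (Fin n) ℚ) (k : Fin m) (ℓ : ℕ) :
    (pat A k * patSum A ^ ℓ).trace ≤ n * n * (n * m) ^ ℓ := by
  rw [Matrix.trace]
  calc ∑ i, (pat A k * patSum A ^ ℓ).diag i ≤ ∑ _i : Fin n, ∑ _x : Fin n, (n * m) ^ ℓ := by
        apply Finset.sum_le_sum
        intro i _
        rw [Matrix.diag_apply, Matrix.mul_apply]
        apply Finset.sum_le_sum
        intro x _
        calc pat A k i x * (patSum A ^ ℓ) x i ≤ 1 * (n * m) ^ ℓ :=
              Nat.mul_le_mul (pat_le A k i x) (pow_le' A ℓ x i)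
          _ = _ := one_mul _
    _ = _ := by simp; ring

theorem bnd_le (hn : 1 ≤ n) (hm : 1 ≤ m) : bnd m n ≤ (n + m) ^ (2 * m + n + 7) := by
  have h1 : m.factorial ≤ (n + m) ^ m := by
    refine (Nat.factorial_le_pow m).trans (Nat.pow_le_pow_left (by omega) m)
  have h2 : n ^ m ≤ (n + m) ^ m := Nat.pow_le_pow_left (by omega) m
  have h3 : (1 + m * (m * ((n + 1) * n + n * (n * m ^ n) * n))) ≤ (n + m) ^ (n + 7) := by
    set N := n + m with hN
    have hN2 : 2 ≤ N := by omega
    have e1 : 1 ≤ N ^ (n + 5) := Nat.one_le_pow _ _ (by omega)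
    have e2 : m * (m * ((n + 1) * n)) ≤ N ^ (n + 5) := by
      calc m * (m * ((n + 1) * n)) ≤ N * (N * (N * N)) := by
            gcongr <;> omega
        _ = N ^ 4 := by ring
        _ ≤ N ^ (n + 5) := Nat.pow_le_pow_right (by omega) (by omega)
    have e3 : m * (m * (n * (n * m ^ n) * n)) ≤ N ^ (n + 5) := by
      calc m * (m * (n * (n * m ^ n) * n)) ≤ N * (N * (N * (N * N ^ n) * N)) := by
            have : m ≤ N := by omega
            have : n ≤ N := by omega
            gcongr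
        _ = N ^ (n + 5) := by ring
    calc 1 + m * (m * ((n + 1) * n + n * (n * m ^ n) * n))
        = 1 + m * (m * ((n + 1) * n)) + m * (m * (n * (n * m ^ n) * n)) := by ring
      _ ≤ N ^ (n + 5) + N ^ (n + 5) + N ^ (n + 5) := by omega
      _ ≤ N ^ (n + 5) * 4 := by omega
      _ ≤ N ^ (n + 5) * (N * N) := Nat.mul_le_mul_left _ (by nlinarith)
      _ = N ^ (n + 7) := by ring
  calc bnd m n ≤ (n + m) ^ m * (n + m) ^ m * (n + m) ^ (n + 7) := by
        unfold bnd
        exact Nat.mul_le_mul (Nat.mul_le_mul h1 h2) h3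
    _ = _ := by rw [← pow_add, ← pow_add]; congr 1; ring

theorem weight_le (hn : 1 ≤ n) (hm : 1 ≤ m) (A : Fin m → Matrix (Fin n) (Fin n) ℚ) (k : Fin m)
    (L : ℕ) (hL : L ≤ n) :
    ∑ ℓ ∈ range L, (ℓ + 1) * (pat A k * patSum A ^ ℓ).trace ≤ (n + m) ^ (2 * n + 4) := by
  have hnm : 1 ≤ n * m := Nat.mul_pos hn hm
  calc ∑ ℓ ∈ range L, (ℓ + 1) * (pat A k * patSum A ^ ℓ).trace
      ≤ ∑ _ℓ ∈ range L, n * (n * n * (n * m) ^ n) := by
        apply Finset.sum_le_sum
        intro ℓ hℓ
        have hℓ' := Finset.mem_range.mp hℓ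
        apply Nat.mul_le_mul (by omega)
        exact (trace_le A k ℓ).trans (Nat.mul_le_mul_left _
          (Nat.pow_le_pow_right hnm (by omega)))
    _ = L * (n * (n * n * (n * m) ^ n)) := by simp
    _ ≤ (n + m) * ((n + m) * ((n + m) * (n + m) * ((n + m) * (n + m)) ^ n)) := by
        have : m ≤ n + m := by omega
        have : n ≤ n + m := by omega
        have : L ≤ n + m := by omega
        gcongr
    _ = (n + m) ^ (2 * n + 4) := by rw [mul_pow]; ring

theorem colour_le (hn : 1 ≤ n) (hm : 1 ≤ m) (A : Fin m → Matrix (Fin n) (Fin n) ℚ) (k : Fin m) :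
    colour A k ≤ (n + m) ^ (3 * (n + m) + 11) := by
  calc colour A k ≤ (n + m) ^ (2 * m + n + 7) * (n + m) ^ (2 * n + 4) := by
        unfold colour
        exact Nat.mul_le_mul (bnd_le hn hm) (weight_le hn hm A k n le_rfl)
    _ = (n + m) ^ (2 * m + n + 7 + (2 * n + 4)) := by rw [← pow_add]
    _ ≤ _ := Nat.pow_le_pow_right (by omega) (by omega)

theorem colour_ne_zero (hn : 1 ≤ n) (A : Fin m → Matrix (Fin n) (Fin n) ℚ)
    (hA : ∀ k i j, 0 ≤ A k i j) (α : Fin m → ℕ) (hα : 1 ≤ ∑ k, α k)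
    (h : ∀ i j, 0 < hurwitz A α i j) : 1 ≤ ∑ k, colour A k := by
  classical
  have h1 : ∀ i j, Reach (fun k i j => 0 < A k i j) α i j := fun i j =>
    (hurwitz_pos_iff A hA α i j).mp (h i j)
  obtain ⟨k₀, hk₀⟩ : ∃ k, α k ≠ 0 := by
    by_contra hcon
    push Not at hcon
    simp [hcon] at hα
  let x : Fin n := ⟨0, hn⟩
  have hcol := (h1 x x).color hk₀
  -- the unit vector is in the span, so some short closed walk uses the colour
  have hg := gen α h1 (Pi.single ⟨k₀, hcol⟩ 1)
  obtain ⟨t, ht⟩ : ∃ t, U (fun k i j => 0 < A k i j) t ⟨k₀, hcol⟩ ≠ 0 := by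
    by_contra hcon
    push Not at hcon
    have : ∀ c ∈ Submodule.span ℤ (Set.range (U (fun k i j => 0 < A k i j))),
        c ⟨k₀, hcol⟩ = 0 := by
      intro c hc
      induction hc using Submodule.span_induction with
      | mem x hx => obtain ⟨t, rfl⟩ := hx; exact hcon t
      | zero => rfl
      | add x y _ _ hx hy => simp [hx, hy]
      | smul a x _ hx => simp [hx]
    have := this _ hg
    simp at this
  have hE : (fun k i j => 0 < A k i j) = (fun k i j => 0 < pat A k i j) := by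
    funext k i j
    simp only [pat, Matrix.of_apply, eq_iff_iff]
    split_ifs with h0 <;> simp [h0]
  have hμ : 0 < ((List.ofFn t.1.2.2).map (pat A)).prod t.1.1 t.1.1 := by
    rw [(prod_pos_iff (pat A) (fun _ _ _ => Nat.zero_le _) _ _ _).2, ← hE]
    exact t.2
  have hc : 0 < cnt t.1 k₀ := by
    apply Nat.pos_of_ne_zero
    intro h0
    apply ht
    simp [U, h0]
  have h4 : 0 < colour A k₀ := by
    rw [colour, patSum, ← sum_ix]
    apply Nat.mul_pos
    · unfold bnd
      have := Nat.factorial_pos m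
      positivity
    · apply Finset.sum_pos' (fun _ _ => Nat.zero_le _)
      exact ⟨t.1, Finset.mem_univ _, Nat.mul_pos hμ hc⟩
  exact le_trans h4 (Finset.single_le_sum (f := colour A) (fun _ _ => Nat.zero_le _)
    (Finset.mem_univ k₀))

end Pool.Agent.X175.HP
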