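import Pool.Agent.X175.HP.Cost

namespace Pool.Agent.X175.HP

open Finset

/-- all numbers which occur are at most this -/
def V (m n : ℕ) : ℕ := (n + m) ^ (3 * (n + m) + 11)

/-- bound for their bit lengths -/
def sz (m n : ℕ) : ℕ := (n + m) * (3 * (n + m) + 11) + 1

/-- bound for the cost of one operation -/
def opc (m n : ℕ) : ℕ := (1 + sz m n) * (1 + sz m n)

variable {m n : ℕ}

theorem size_le_sz {a : ℕ} (h : a ≤ V m n) : a.size ≤ sz m n := by
  rw [Nat.size_le]
  calc a ≤ (n + m) ^ (3 * (n + m) + 11) := h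
    _ ≤ (2 ^ (n + m)) ^ (3 * (n + m) + 11) :=
        Nat.pow_le_pow_left (Nat.lt_two_pow_self).le _
    _ = 2 ^ ((n + m) * (3 * (n + m) + 11)) := by rw [← pow_mul]
    _ < 2 ^ sz m n := Nat.pow_lt_pow_right (by norm_num) (by unfold sz; omega)

theorem mul_time {a b : ℕ} (ha : a ≤ V m n) (hb : b ≤ V m n) : (mulC a b).time ≤ opc m n :=
  Nat.mul_le_mul (Nat.add_le_add_left (size_le_sz ha) 1) (Nat.add_le_add_left (size_le_sz hb) 1)

theorem two_sz : 1 + 2 * sz m n ≤ opc m n := by unfold opc; nlinarith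

theorem one_opc : 1 ≤ opc m n := le_trans (by omega) (two_sz (m := m) (n := n))

theorem add_time {a b : ℕ} (ha : a ≤ V m n) (hb : b ≤ V m n) : (addC a b).time ≤ opc m n := by
  have h1 := size_le_sz ha
  have h2 := size_le_sz hb
  have h3 := two_sz (m := m) (n := n)
  unfold addC
  simp only
  omega

theorem fact_time (h : m.factorial ≤ V m n) (hm : m ≤ V m n) (k : ℕ) (hk : k ≤ m) :
    (factC k).time ≤ 1 + k * opc m n := by
  induction k with
  | zero => simp [factC]
  | succ k ih =>
    rw [factC, time_bind, ret_fact]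
    have h1 := ih (by omega)
    have h2 : (mulC (k + 1) k.factorial).time ≤ opc m n :=
      mul_time (by omega) ((Nat.factorial_le (by omega)).trans h)
    calc _ ≤ (1 + k * opc m n) + opc m n := Nat.add_le_add h1 h2
      _ = _ := by ring

theorem pow_time (a K : ℕ) (ha : 1 ≤ a) (h : a ^ K ≤ V m n) (haV : a ≤ V m n) (k : ℕ)
    (hk : k ≤ K) : (powC a k).time ≤ 1 + k * opc m n := by
  induction k with
  | zero => simp [powC]
  | succ k ih =>
    rw [powC, time_bind, ret_pow]
    have h1 := ih (by omega)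
    have h2 : (mulC (a ^ k) a).time ≤ opc m n :=
      mul_time ((Nat.pow_le_pow_right ha (by omega)).trans h) haV
    calc _ ≤ (1 + k * opc m n) + opc m n := Nat.add_le_add h1 h2
      _ = _ := by ring

theorem bnd_V (hn : 1 ≤ n) (hm : 1 ≤ m) : bnd m n ≤ V m n :=
  (bnd_le hn hm).trans (Nat.pow_le_pow_right (by omega) (by omega))

theorem bnd_time (hn : 1 ≤ n) (hm : 1 ≤ m) :
    (bndC m n).time ≤ 3 + (n + 2 * m + 11) * opc m n := by
  have hV := bnd_V hn hm
  have hfac : 1 ≤ m.factorial := Nat.factorial_pos m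
  have hnm : 1 ≤ n ^ m := Nat.one_le_pow _ _ (by omega)
  have hmn : 1 ≤ m ^ n := Nat.one_le_pow _ _ (by omega)
  set e := m ^ n with he
  set e1 := n * e with he1
  set e2 := n * e1 with he2
  set e3 := e2 * n with he3
  set a1 := n + 1 with ha1
  set a2 := a1 * n with ha2
  set a3 := a2 + e3 with ha3
  set a4 := m * a3 with ha4
  set a5 := m * a4 with ha5
  set a6 := 1 + a5 with ha6
  set f := m.factorial with hf
  set p := n ^ m with hp
  set g := f * p with hg
  have hb : g * a6 ≤ V m n := hV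
  have b_g : 1 ≤ g := Nat.mul_pos hfac hnm
  have l_a6 : a6 ≤ V m n := (Nat.le_mul_of_pos_left _ b_g).trans hb
  have l_g : g ≤ V m n := (Nat.le_mul_of_pos_right _ (by omega)).trans hb
  have l_f : f ≤ V m n := (Nat.le_mul_of_pos_right _ hnm).trans l_g
  have l_p : p ≤ V m n := (Nat.le_mul_of_pos_left _ hfac).trans l_g
  have l_a5 : a5 ≤ V m n := le_trans (by omega) l_a6
  have l_a4 : a4 ≤ V m n := (Nat.le_mul_of_pos_left _ hm).trans l_a5
  have l_a3 : a3 ≤ V m n := (Nat.le_mul_of_pos_left _ hm).trans l_a4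
  have l_e3 : e3 ≤ V m n := le_trans (by omega) l_a3
  have l_a2 : a2 ≤ V m n := le_trans (by omega) l_a3
  have l_a1 : a1 ≤ V m n := (Nat.le_mul_of_pos_right _ hn).trans l_a2
  have l_e2 : e2 ≤ V m n := (Nat.le_mul_of_pos_right _ hn).trans l_e3
  have l_e1 : e1 ≤ V m n := (Nat.le_mul_of_pos_left _ hn).trans l_e2
  have l_e : e ≤ V m n := (Nat.le_mul_of_pos_left _ hn).trans l_e1
  have l_n : n ≤ V m n := le_trans (by omega) l_a1
  have l_1 : 1 ≤ V m n := le_trans hn l_n
  have l_m : m ≤ V m n := by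
    have h1 : m * 1 ≤ a4 := Nat.mul_le_mul_left m (by
      have : 1 ≤ a2 := Nat.mul_pos (by omega) hn
      omega)
    omega
  have t_e := pow_time (m := m) (n := n) m n hm l_e l_m n le_rfl
  have t_p := pow_time (m := m) (n := n) n m hn l_p l_n m le_rfl
  have t_f := fact_time (m := m) (n := n) l_f l_m m le_rfl
  have t1 := mul_time l_n l_e
  have t2 := mul_time l_n l_e1
  have t3 := mul_time l_e2 l_n
  have t4 := add_time l_n l_1
  have t5 := mul_time l_a1 l_n
  have t6 := add_time l_a2 l_e3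
  have t7 := mul_time l_m l_a3
  have t8 := mul_time l_m l_a4
  have t9 := add_time l_1 l_a5
  have t10 := mul_time l_f l_p
  have t11 := mul_time l_g l_a6
  have htime : (bndC m n).time = (powC m n).time + ((mulC n e).time + ((mulC n e1).time +
      ((mulC e2 n).time + ((addC n 1).time + ((mulC a1 n).time + ((addC a2 e3).time +
      ((mulC m a3).time + ((mulC m a4).time + ((addC 1 a5).time + ((factC m).time +
      ((powC n m).time + ((mulC f p).time + (mulC g a6).time)))))))))))) := by
    simp only [bndC, time_bind, ret_mul, ret_add, ret_pow, ret_fact, he, he1, he2, he3, ha1, ha2,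
      ha3, ha4, ha5, ha6, hf, hp, hg]
  rw [htime]
  linarith

theorem mulMat_time (X Y : Fin n → Fin n → ℕ) (hX : ∀ i j, X i j ≤ V m n)
    (hY : ∀ i j, Y i j ≤ V m n) (hXY : ∀ i j, ∑ x, X i x * Y x j ≤ V m n) :
    (mulMatC X Y).time ≤ n * (1 + n * (1 + (1 + n * (2 * opc m n)))) := by
  apply time_table
  intro i
  apply time_table
  intro j
  refine (time_sum _ (opc m n) (sz m n) (fun x => mul_time (hX _ _) (hY _ _)) ?_).trans ?_
  · simp only [ret_mul]
    exact size_le_sz (hXY i j)
  · have := two_sz (m := m) (n := n)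
    apply Nat.add_le_add_left
    apply Nat.mul_le_mul_left
    omega

theorem tr_time (X Y : Fin n → Fin n → ℕ) (hX : ∀ i j, X i j ≤ V m n)
    (hY : ∀ i j, Y i j ≤ V m n) (hXY : ∑ i, ∑ x, X i x * Y x i ≤ V m n) :
    (traceC X Y).time ≤ 1 + n * (1 + n * (2 * opc m n) + opc m n) := by
  have h1 := two_sz (m := m) (n := n)
  refine (time_sum _ (1 + n * (2 * opc m n)) (sz m n) (fun i => ?_) ?_).trans ?_
  · refine (time_sum _ (opc m n) (sz m n) (fun x => mul_time (hX _ _) (hY _ _)) ?_).trans ?_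
    · simp only [ret_mul]
      apply size_le_sz
      exact le_trans (Finset.single_le_sum (f := fun i => ∑ x, X i x * Y x i)
        (fun _ _ => Nat.zero_le _) (Finset.mem_univ i)) hXY
    · apply Nat.add_le_add_left
      apply Nat.mul_le_mul_left
      omega
  · simp only [ret_sum, ret_mul]
    exact size_le_sz hXY
  · apply Nat.add_le_add_left
    apply Nat.mul_le_mul_left
    omega

theorem npow_V (hn : 1 ≤ n) (hm : 1 ≤ m) (L : ℕ) (hL : L ≤ n) : (n * m) ^ L ≤ V m n := by
  calc (n * m) ^ L ≤ (n * m) ^ n := Nat.pow_le_pow_right (Nat.mul_pos hn hm) hL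
    _ ≤ ((n + m) * (n + m)) ^ n := Nat.pow_le_pow_left (Nat.mul_le_mul (by omega) (by omega)) _
    _ = (n + m) ^ (2 * n) := by rw [← pow_two, ← pow_mul]
    _ ≤ V m n := Nat.pow_le_pow_right (by omega) (by omega)

theorem wt_V (hn : 1 ≤ n) (hm : 1 ≤ m) (A : Fin m → Matrix (Fin n) (Fin n) ℚ) (k : Fin m)
    (L : ℕ) (hL : L ≤ n) :
    ∑ ℓ ∈ range L, (ℓ + 1) * (pat A k * patSum A ^ ℓ).trace ≤ V m n :=
  (weight_le hn hm A k L hL).trans (Nat.pow_le_pow_right (by omega) (by omega))

/-- cost of one round -/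
def W1 (m n : ℕ) : ℕ := (1 + n * (1 + n * (2 * opc m n) + opc m n)) + (opc m n + (opc m n +
  (n * (1 + n * (1 + (1 + n * (2 * opc m n)))) + 1)))

theorem weight_time (hn : 1 ≤ n) (hm : 1 ≤ m) (A : Fin m → Matrix (Fin n) (Fin n) ℚ)
    (k : Fin m) (L : ℕ) (hL : L ≤ n) :
    (weightC (fun i j => pat A k i j) (fun i j => patSum A i j) L).time ≤
      (n * (1 + n * (1 + 1)) + 1) + L * W1 m n := by
  induction L with
  | zero =>
    have h1 : (tableC fun i : Fin n => tableC fun j : Fin n =>
        (retC (if i = j then 1 else 0) : Cost ℕ)).time ≤ n * (1 + n * (1 + 1)) := by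
      apply time_table
      intro i
      apply time_table
      intro j
      simp
    rw [weightC, time_bind, time_pure]
    omega
  | succ L ih =>
    have ih' := ih (by omega)
    set B : Fin n → Fin n → ℕ := fun i j => pat A k i j with hB
    set S : Fin n → Fin n → ℕ := fun i j => patSum A i j with hS
    obtain ⟨r1, r2⟩ := ret_weight B S L
    set p := (weightC B S L).ret with hp
    have hX : ∀ i j, p.1 i j ≤ V m n := by
      intro i j
      rw [r1]
      exact (pow_le' A L i j).trans (npow_V hn hm L (by omega))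
    have hBV : ∀ i j, B i j ≤ V m n := by
      intro i j
      exact (pat_le A k i j).trans (Nat.one_le_pow _ _ (by omega))
    have hSV : ∀ i j, S i j ≤ V m n := by
      intro i j
      have := patSum_le A i j
      calc S i j ≤ m := this
        _ ≤ n * m := Nat.le_mul_of_pos_left _ hn
        _ = (n * m) ^ 1 := (pow_one _).symm
        _ ≤ V m n := npow_V hn hm 1 hn
    have hXof : Matrix.of p.1 = (patSum A) ^ L := by
      ext i j
      exact r1 i j
    have hXS : ∀ i j, ∑ x, p.1 i x * S x j ≤ V m n := by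
      intro i j
      have h1 : ∑ x, p.1 i x * S x j = (patSum A ^ (L + 1)) i j := by
        rw [pow_succ, Matrix.mul_apply]
        apply Finset.sum_congr rfl
        intro x _
        rw [r1]
        rfl
      rw [h1]
      exact (pow_le' A (L + 1) i j).trans (npow_V hn hm (L + 1) hL)
    have htr : (traceC B p.1).ret = (pat A k * patSum A ^ L).trace := by
      rw [ret_trace, hXof]; rfl
    have hstep : (L + 1) * (pat A k * patSum A ^ L).trace ≤ V m n := by
      have h1 := wt_V hn hm A k (L + 1) hL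
      rw [Finset.sum_range_succ] at h1
      omega
    have htrV : (pat A k * patSum A ^ L).trace ≤ V m n :=
      le_trans (Nat.le_mul_of_pos_left _ (Nat.succ_pos L)) hstep
    have hBX : ∑ i, ∑ x, B i x * p.1 x i ≤ V m n := by
      have h1 : ∑ i, ∑ x, B i x * p.1 x i = (traceC B p.1).ret := by
        simp [traceC]
      rw [h1, htr]
      exact htrV
    have t1 := tr_time (m := m) B p.1 hBV hX hBX
    have t2 : (mulC (L + 1) (traceC B p.1).ret).time ≤ opc m n := by
      apply mul_time
      · calc L + 1 ≤ n := hL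
          _ ≤ n * m := Nat.le_mul_of_pos_right _ hm
          _ = (n * m) ^ 1 := (pow_one _).symm
          _ ≤ V m n := npow_V hn hm 1 hn
      · rw [htr]; exact htrV
    have t3 : (addC p.2 ((L + 1) * (traceC B p.1).ret)).time ≤ opc m n := by
      apply add_time
      · rw [r2]; exact wt_V hn hm A k L (by omega)
      · rw [htr]; exact hstep
    have t4 := mulMat_time (m := m) p.1 S hX hSV hXS
    have htime : (weightC B S (L + 1)).time = (weightC B S L).time + ((traceC B p.1).time +
        ((mulC (L + 1) (traceC B p.1).ret).time + ((addC p.2 ((L + 1) * (traceC B p.1).ret)).time +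
        ((mulMatC p.1 S).time + 1)))) := rfl
    rw [htime]
    have hW : (traceC B p.1).time +
        ((mulC (L + 1) (traceC B p.1).ret).time + ((addC p.2 ((L + 1) * (traceC B p.1).ret)).time +
        ((mulMatC p.1 S).time + 1))) ≤ W1 m n := by
      unfold W1
      omega
    calc _ ≤ ((n * (1 + n * (1 + 1)) + 1) + L * W1 m n) + W1 m n := Nat.add_le_add ih' hW
      _ = _ := by ring

theorem one_add_sum {N : ℕ} (hN : 1 ≤ N) (f g : Fin N → ℕ) (a : ℕ) (hg : ∀ i, 1 ≤ g i)
    (hf : ∀ i, f i ≤ a * g i) : 1 + ∑ i, f i ≤ (a + 1) * ∑ i, g i := by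
  have h1 : 1 ≤ ∑ i, g i := by
    calc 1 ≤ N := hN
      _ = ∑ _i : Fin N, 1 := by simp
      _ ≤ _ := Finset.sum_le_sum fun i _ => hg i
  have h2 : ∑ i, f i ≤ a * ∑ i, g i := by
    rw [Finset.mul_sum]; exact Finset.sum_le_sum fun i _ => hf i
  calc 1 + ∑ i, f i ≤ ∑ i, g i + a * ∑ i, g i := Nat.add_le_add h1 h2
    _ = _ := by ring

theorem sign_time (hn : 1 ≤ n) (A : Fin m → Matrix (Fin n) (Fin n) ℚ) :
    (tableC fun k => tableC fun i => tableC fun j => signC (A k i j)).time ≤
      4 * ∑ k, ∑ i, ∑ j, (1 + (A k i j).num.natAbs.size + (A k i j).den.size) := by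
  set g : Fin m → Fin n → Fin n → ℕ := fun k i j =>
    1 + (A k i j).num.natAbs.size + (A k i j).den.size with hg
  have h0 : (tableC fun k => tableC fun i => tableC fun j => signC (A k i j)).time =
      ∑ k, (1 + ∑ i, (1 + ∑ j, (1 + g k i j))) := rfl
  rw [h0, Finset.mul_sum]
  have hg1 : ∀ k i j, 1 ≤ g k i j := fun k i j => by simp only [hg]; omega
  have hs1 : ∀ k i, 1 ≤ ∑ j, g k i j := by
    intro k i
    calc 1 ≤ n := hn
      _ = ∑ _i : Fin n, 1 := by simp
      _ ≤ _ := Finset.sum_le_sum fun j _ => hg1 k i j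
  apply Finset.sum_le_sum
  intro k _
  refine one_add_sum hn _ _ 3 (fun i => hs1 k i) (fun i => ?_)
  refine one_add_sum hn _ _ 2 (fun j => hg1 k i j) (fun j => ?_)
  have := hg1 k i j
  change 1 + g k i j ≤ 2 * g k i j
  omega

theorem S_time (hm : 1 ≤ m) (hn : 1 ≤ n) (A : Fin m → Matrix (Fin n) (Fin n) ℚ) :
    (tableC fun i => tableC fun j => sumC fun k => (retC (pat A k i j) : Cost ℕ)).time ≤
      n * (1 + n * (1 + (1 + m * (2 * opc m n)))) := by
  apply time_table
  intro i
  apply time_table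
  intro j
  have h1 := two_sz (m := m) (n := n)
  have h2 := one_opc (m := m) (n := n)
  refine (time_sum _ 1 (sz m n) (fun k => by simp) ?_).trans ?_
  · simp only [ret_pure]
    apply size_le_sz
    have := patSum_le A i j
    rw [patSum, Matrix.sum_apply] at this
    calc _ ≤ m := this
      _ ≤ n * m := Nat.le_mul_of_pos_left _ hn
      _ = (n * m) ^ 1 := (pow_one _).symm
      _ ≤ V m n := npow_V hn hm 1 hn
  · apply Nat.add_le_add_left
    apply Nat.mul_le_mul_left
    omega

theorem final_time (hn : 1 ≤ n) (hm : 1 ≤ m) (A : Fin m → Matrix (Fin n) (Fin n) ℚ) :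
    (tableC fun k => thenC (weightC (fun i j => pat A k i j) (fun i j => patSum A i j) n) fun p =>
      mulC (bnd m n) p.2).time ≤
      m * (1 + ((n * (1 + n * (1 + 1)) + 1) + n * W1 m n + opc m n)) := by
  apply time_table
  intro k
  rw [time_bind]
  apply Nat.add_le_add (weight_time hn hm A k n le_rfl)
  apply mul_time (bnd_V hn hm)
  rw [(ret_weight _ _ _).2]
  exact wt_V hn hm A k n le_rfl

theorem poly_aux (x c n m q : ℕ) (hx : 1 ≤ x) (hc : 1 ≤ c) (hn : n ≤ x) (hm : m ≤ x)
    (hq : q ≤ x) :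
    4 * q + (n * (1 + n * (1 + (1 + m * (2 * c)))) + ((3 + (n + 2 * m + 11) * c) +
      m * (1 + ((n * (1 + n * (1 + 1)) + 1) + n * ((1 + n * (1 + n * (2 * c) + c)) + (c + (c +
      (n * (1 + n * (1 + (1 + n * (2 * c)))) + 1)))) + c)))) ≤ 60 * (x ^ 5 * c) := by
  have h1 : 4 * q + (n * (1 + n * (1 + (1 + m * (2 * c)))) + ((3 + (n + 2 * m + 11) * c) +
      m * (1 + ((n * (1 + n * (1 + 1)) + 1) + n * ((1 + n * (1 + n * (2 * c) + c)) + (c + (c +
      (n * (1 + n * (1 + (1 + n * (2 * c)))) + 1)))) + c)))) ≤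
      4 * x + (x * (1 + x * (1 + (1 + x * (2 * c)))) + ((3 + (x + 2 * x + 11) * c) +
      x * (1 + ((x * (1 + x * (1 + 1)) + 1) + x * ((1 + x * (1 + x * (2 * c) + c)) + (c + (c +
      (x * (1 + x * (1 + (1 + x * (2 * c)))) + 1)))) + c)))) := by
    gcongr
  refine h1.trans ?_
  have p : ∀ a ≤ 5, x ^ a ≤ x ^ 5 := fun a ha => Nat.pow_le_pow_right hx ha
  have p1 : ∀ a ≤ 5, x ^ a * c ≤ x ^ 5 * c := fun a ha => Nat.mul_le_mul_right c (p a ha)
  have p2 : ∀ a ≤ 5, x ^ a ≤ x ^ 5 * c := fun a ha =>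
    (p a ha).trans (Nat.le_mul_of_pos_right _ hc)
  have a0 := p2 0 (by norm_num)
  have a1 := p2 1 (by norm_num)
  have a2 := p2 2 (by norm_num)
  have a3 := p2 3 (by norm_num)
  have a4 := p2 4 (by norm_num)
  have a5 := p2 5 (by norm_num)
  have b0 := p1 0 (by norm_num)
  have b1 := p1 1 (by norm_num)
  have b2 := p1 2 (by norm_num)
  have b3 := p1 3 (by norm_num)
  have b4 := p1 4 (by norm_num)
  simp only [pow_zero, pow_one, one_mul] at a0 a1 b0 b1
  ring_nf at *
  linarith

theorem opc_le (x : ℕ) (hx : 1 ≤ x) (h : n + m ≤ x) : opc m n ≤ 256 * x ^ 4 := by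
  have h1 : 1 + sz m n ≤ 16 * x ^ 2 := by
    have h2 : sz m n ≤ x * (3 * x + 11) + 1 := by
      unfold sz
      gcongr
    nlinarith
  calc opc m n ≤ (16 * x ^ 2) * (16 * x ^ 2) := Nat.mul_le_mul h1 h1
    _ = _ := by ring

theorem time_algorithm (hn : 1 ≤ n) (hm : 1 ≤ m) (A : Fin m → Matrix (Fin n) (Fin n) ℚ) :
    (algorithm A).time ≤ 15360 * inputSize A ^ 9 := by
  set q := ∑ k, ∑ i, ∑ j, (1 + (A k i j).num.natAbs.size + (A k i j).den.size) with hq
  have hx : inputSize A = n + m + q := rfl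
  set x := inputSize A with hxdef
  have htime : (algorithm A).time =
      (tableC fun k => tableC fun i => tableC fun j => signC (A k i j)).time +
      ((tableC fun i => tableC fun j => sumC fun k => (retC (pat A k i j) : Cost ℕ)).time +
      ((bndC m n).time + (tableC fun k => thenC (weightC (fun i j => pat A k i j)
          (tableC fun i => tableC fun j => sumC fun k => (retC (pat A k i j) : Cost ℕ)).ret n)
          fun p => mulC (bndC m n).ret p.2).time)) := rfl
  rw [htime, ret_S, ret_bnd]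
  have t1 := sign_time hn A
  have t2 := S_time hm hn A
  have t3 := bnd_time hn hm
  have t4 := final_time hn hm A
  have h1 := Nat.add_le_add t1 (Nat.add_le_add t2 (Nat.add_le_add t3 t4))
  refine h1.trans ?_
  have h2 := poly_aux x (opc m n) n m q (by omega) one_opc (by omega) (by omega) (by omega)
  unfold W1
  refine h2.trans ?_
  calc 60 * (x ^ 5 * opc m n) ≤ 60 * (x ^ 5 * (256 * x ^ 4)) := by
        have := opc_le (m := m) (n := n) x (by omega) (by omega)
        gcongr
    _ = 15360 * x ^ 9 := by ring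

end Pool.Agent.X175.HP
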